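import Mathlib
import Pool.Agent.U709.FF.Stm

set_option autoImplicit false

/-! Project FF (helper709), package EIG (helper810): eigenvalues of integral matrices whose
reductions have smooth order. -/

namespace Pool.Agent.U810.FF

open Matrix Polynomial Pool.Agent.U709.FF

/-- eigenvalues of a matrix of finite order -/
theorem eig_pow {k : Type} [Field k] {n : ℕ} (y : GL (Fin n) k) (x : k)
    (hx : (y : Matrix (Fin n) (Fin n) k).charpoly.IsRoot x) : x ^ orderOf y = 1 := by
  have h1 : Matrix.det (x • (1 : Matrix (Fin n) (Fin n) k) - (y : Matrix (Fin n) (Fin n) k)) = 0 := by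
    have h2 := hx
    rw [IsRoot.def, Matrix.eval_charpoly] at h2
    rw [← h2]
    congr 1
    rw [Matrix.smul_one_eq_diagonal, Matrix.scalar_apply]
  obtain ⟨v, hv0, hv⟩ := Matrix.exists_mulVec_eq_zero_iff.2 h1
  have h2 : (y : Matrix (Fin n) (Fin n) k) *ᵥ v = x • v := by
    rw [Matrix.sub_mulVec, Matrix.smul_mulVec, Matrix.one_mulVec, sub_eq_zero] at hv
    exact hv.symm
  have h3 : ∀ t : ℕ, ((y : Matrix (Fin n) (Fin n) k) ^ t) *ᵥ v = x ^ t • v := by
    intro t
    induction t with
    | zero => simp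
    | succ t ih =>
      rw [pow_succ, ← Matrix.mulVec_mulVec, h2, Matrix.mulVec_smul, ih, smul_smul, pow_succ']
  have h4 := h3 (orderOf y)
  have h5 : (y : Matrix (Fin n) (Fin n) k) ^ orderOf y = 1 := by
    rw [← Units.val_pow_eq_pow_val, pow_orderOf_eq_one, Units.val_one]
  rw [h5, Matrix.one_mulVec] at h4
  by_contra hne
  apply hv0
  have h6 : (x ^ orderOf y - 1) • v = 0 := by
    rw [sub_smul, one_smul, ← h4, sub_self]
  exact (smul_eq_zero.1 h6).resolve_left (sub_ne_zero.2 hne)

theorem t_EIG (h : NF) : EIG := by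
  classical
  intro n B y hy z hz
  obtain ⟨p, hp⟩ : ∃ p, p = (y : Matrix (Fin n) (Fin n) ℤ).charpoly := ⟨_, rfl⟩
  have hpm : p.Monic := hp ▸ Matrix.charpoly_monic _
  rw [← hp] at hz
  have hzint : IsIntegral ℤ z := by
    refine ⟨p, hpm, ?_⟩
    rw [IsRoot.def, eval_map] at hz
    exact hz
  have hzQ : IsIntegral ℚ z := hzint.tower_top
  have hfd : FiniteDimensional ℚ (IntermediateField.adjoin ℚ {z}) :=
    IntermediateField.adjoin.finiteDimensional hzQ
  have hnf : NumberField (IntermediateField.adjoin ℚ {z}) := { to_charZero := inferInstance, to_finiteDimensional := hfd }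
  obtain ⟨K, hK⟩ : ∃ K : IntermediateField ℚ ℂ, K = IntermediateField.adjoin ℚ {z} := ⟨_, rfl⟩
  rw [← hK] at hfd hnf
  have hzK : z ∈ K := hK ▸ IntermediateField.mem_adjoin_simple_self ℚ z
  have hxint : IsIntegral ℤ (⟨z, hzK⟩ : K) := by
    obtain ⟨q, hq, hq'⟩ := hzint
    refine ⟨q, hq, ?_⟩
    have h1 : (algebraMap K ℂ) (eval₂ (algebraMap ℤ K) (⟨z, hzK⟩ : K) q) = 0 := by
      rw [hom_eval₂]
      have h2 : (algebraMap K ℂ).comp (algebraMap ℤ K) = algebraMap ℤ ℂ := RingHom.ext_int _ _
      rw [h2]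
      exact hq'
    exact (map_eq_zero_iff _ (algebraMap K ℂ).injective).1 h1
  obtain ⟨x, hx⟩ : ∃ x : NumberField.RingOfIntegers K, ((x : K) : ℂ) = z :=
    ⟨⟨⟨z, hzK⟩, hxint⟩, rfl⟩
  have hinj : Function.Injective (fun a : NumberField.RingOfIntegers K => ((a : K) : ℂ)) :=
    fun a b hab => NumberField.RingOfIntegers.ext (Subtype.ext hab)
  let φ : NumberField.RingOfIntegers K →+* ℂ := (algebraMap K ℂ).comp (algebraMap _ K)
  have hφ : Function.Injective φ := hinj
  have hφx : φ x = z := hx
  have hroot : eval₂ (Int.castRingHom (NumberField.RingOfIntegers K)) x p = 0 := by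
    apply hφ
    rw [hom_eval₂, map_zero, hφx]
    rw [IsRoot.def, eval_map] at hz
    have h2 : φ.comp (Int.castRingHom (NumberField.RingOfIntegers K)) = Int.castRingHom ℂ :=
      RingHom.ext_int _ _
    rw [h2]
    exact hz
  have hx0 : x ≠ 0 := by
    intro h0
    rw [h0, eval₂_at_zero, hp] at hroot
    have h1 : (y : Matrix (Fin n) (Fin n) ℤ).charpoly.coeff 0 = 0 := by
      have h2 : ((Int.castRingHom (NumberField.RingOfIntegers K))
        ((y : Matrix (Fin n) (Fin n) ℤ).charpoly.coeff 0)) = 0 := hroot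
      have h3 := congrArg φ h2
      rw [map_zero] at h3
      have h4 : (((y : Matrix (Fin n) (Fin n) ℤ).charpoly.coeff 0 : ℤ) : ℂ) = 0 := by
        convert h3 using 1
        simp
      exact_mod_cast h4
    have h5 := Matrix.det_eq_sign_charpoly_coeff (y : Matrix (Fin n) (Fin n) ℤ)
    rw [h1, mul_zero] at h5
    have h6 : IsUnit (Matrix.det (y : Matrix (Fin n) (Fin n) ℤ)) :=
      (Matrix.isUnit_iff_isUnit_det _).1 y.isUnit
    rw [h5] at h6
    exact not_isUnit_zero h6
  obtain ⟨t, ht, ht'⟩ := h K x hx0 B.factorial (Nat.factorial_pos B) (by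
    intro I hI s hs hs1
    let _ : Field (NumberField.RingOfIntegers K ⧸ I) := Ideal.Quotient.field I
    have hI0 : I ≠ ⊥ := by
      intro h0
      apply NumberField.RingOfIntegers.not_isField K
      rw [h0] at hI
      exact Ring.isField_iff_maximal_bot.2 hI
    have hfin : Finite (NumberField.RingOfIntegers K ⧸ I) := Ideal.finiteQuotientOfFreeOfNeBot I hI0
    obtain ⟨xb, hxb⟩ : ∃ xb, xb = Ideal.Quotient.mk I x := ⟨_, rfl⟩
    rw [← hxb] at hs1 ⊢
    obtain ⟨yb, hyb⟩ : ∃ yb, yb =
      GeneralLinearGroup.map (Int.castRingHom (NumberField.RingOfIntegers K ⧸ I)) y := ⟨_, rfl⟩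
    have hybr : (yb : Matrix (Fin n) (Fin n) _).charpoly.IsRoot xb := by
      have h1 : (yb : Matrix (Fin n) (Fin n) (NumberField.RingOfIntegers K ⧸ I)) =
          (y : Matrix (Fin n) (Fin n) ℤ).map (Int.castRingHom _) := by
        rw [hyb]
        rfl
      rw [h1, Matrix.charpoly_map, ← hp, IsRoot.def, eval_map, hxb]
      have h2 := congrArg (Ideal.Quotient.mk I) hroot
      rw [hom_eval₂, map_zero] at h2
      have h3 : (Ideal.Quotient.mk I).comp (Int.castRingHom (NumberField.RingOfIntegers K)) =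
          Int.castRingHom _ := RingHom.ext_int _ _
      rw [h3] at h2
      exact h2
    have hpow := eig_pow yb xb hybr
    have hpos : 0 < orderOf yb := by
      have : Finite (GL (Fin n) (NumberField.RingOfIntegers K ⧸ I)) := by
        have : Finite (Matrix (Fin n) (Fin n) (NumberField.RingOfIntegers K ⧸ I)) := by
          unfold Matrix
          infer_instance
        infer_instance
      exact orderOf_pos yb
    by_contra hne
    have ht1 : orderOf xb ≠ 1 := fun h1 => hne (orderOf_eq_one_iff.1 h1)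
    obtain ⟨q, hq, hqt⟩ := Nat.exists_prime_and_dvd ht1
    have hqs : q ∣ s := hqt.trans (orderOf_dvd_of_pow_eq_one hs1)
    have hqB : B < q := by
      by_contra hle
      push Not at hle
      have h1 : q ∣ B.factorial := (Nat.Prime.dvd_factorial hq).2 hle
      have h2 := Nat.dvd_gcd hqs h1
      rw [Nat.Coprime.gcd_eq_one hs] at h2
      exact hq.one_lt.ne' (Nat.dvd_one.1 h2)
    have hqy : q ∣ orderOf yb := hqt.trans (orderOf_dvd_of_pow_eq_one hpow)
    have hq0 : (q : NumberField.RingOfIntegers K ⧸ I) = 0 := by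
      by_contra hq0
      exact hy _ q hq hqB hq0 (hyb ▸ hqy)
    have hchar : CharP (NumberField.RingOfIntegers K ⧸ I) q := by
      refine (CharP.charP_iff_prime_eq_zero hq).2 hq0
    obtain ⟨t', ht'⟩ := hqt
    have hfq : Fact q.Prime := ⟨hq⟩
    have h1 : (xb ^ t') ^ q = 1 := by
      rw [← pow_mul, mul_comm, ← ht', pow_orderOf_eq_one]
    have h2 : xb ^ t' = 1 := by
      have h3 : (xb ^ t' - 1) ^ q = 0 := by
        rw [sub_pow_char, h1, one_pow, sub_self]
      exact sub_eq_zero.1 (pow_eq_zero_iff hq.ne_zero |>.1 h3)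
    have h3 : orderOf xb ∣ t' := orderOf_dvd_of_pow_eq_one h2
    have h4 : 0 < orderOf xb := Nat.pos_of_dvd_of_pos (orderOf_dvd_of_pow_eq_one hpow) hpos
    have h5 : 0 < t' := by
      rcases Nat.eq_zero_or_pos t' with h | h
      · rw [h, mul_zero] at ht'
        omega
      · exact h
    have h6 := Nat.le_of_dvd h5 h3
    rw [ht'] at h6
    have := hq.two_le
    nlinarith)
  refine ⟨t, ht, ?_⟩
  have h1 := congrArg φ ht'
  rw [map_pow, map_one, hφx] at h1
  exact h1

end Pool.Agent.U810.FF
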